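import Mathlib

/-!
# The two length-five unitriangular products differ in `SL₂(K[X])`
-/

set_option autoImplicit false

open Polynomial Matrix Pointwise

namespace Pool.Agent.Results.MP_b8636a_al.FiveFactors

universe u

/-- The root unipotent `x_α(ξ)` of `SL₂(R)` for the positive root `α`. -/
def xPos {R : Type u} [CommRing R] (ξ : R) : Matrix.SpecialLinearGroup (Fin 2) R :=
  ⟨!![1, ξ; 0, 1], by simp [Matrix.det_fin_two]⟩

/-- The root unipotent `x_{-α}(ξ)` of `SL₂(R)` for the negative root `-α`. -/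
def xNeg {R : Type u} [CommRing R] (ξ : R) : Matrix.SpecialLinearGroup (Fin 2) R :=
  ⟨!![1, 0; ξ, 1], by simp [Matrix.det_fin_two]⟩

/-- The subgroup `U` generated by the root unipotents of the positive root. -/
def U (R : Type u) [CommRing R] : Subgroup (Matrix.SpecialLinearGroup (Fin 2) R) :=
  Subgroup.closure (Set.range xPos)

/-- The subgroup `U⁻` generated by the root unipotents of the negative root. -/
def Uminus (R : Type u) [CommRing R] : Subgroup (Matrix.SpecialLinearGroup (Fin 2) R) :=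
  Subgroup.closure (Set.range xNeg)

section

variable {R : Type u} [CommRing R]

lemma coe_xPos (a : R) : ((xPos a : Matrix.SpecialLinearGroup (Fin 2) R) : Matrix (Fin 2) (Fin 2) R) =
    !![1, a; 0, 1] := rfl

lemma coe_xNeg (a : R) : ((xNeg a : Matrix.SpecialLinearGroup (Fin 2) R) : Matrix (Fin 2) (Fin 2) R) =
    !![1, 0; a, 1] := rfl

lemma xPos_mul (a b : R) : xPos a * xPos b = xPos (a + b) := by
  apply Subtype.ext
  rw [Matrix.SpecialLinearGroup.coe_mul, coe_xPos, coe_xPos, coe_xPos]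
  ext i j
  fin_cases i <;> fin_cases j <;> simp [Matrix.mul_apply, Fin.sum_univ_two, add_comm]

lemma xNeg_mul (a b : R) : xNeg a * xNeg b = xNeg (a + b) := by
  apply Subtype.ext
  rw [Matrix.SpecialLinearGroup.coe_mul, coe_xNeg, coe_xNeg, coe_xNeg]
  ext i j
  fin_cases i <;> fin_cases j <;> simp [Matrix.mul_apply, Fin.sum_univ_two]

lemma xPos_zero : xPos (0 : R) = 1 := by
  apply Subtype.ext
  rw [coe_xPos, Matrix.SpecialLinearGroup.coe_one]
  ext i j
  fin_cases i <;> fin_cases j <;> simp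

lemma xNeg_zero : xNeg (0 : R) = 1 := by
  apply Subtype.ext
  rw [coe_xNeg, Matrix.SpecialLinearGroup.coe_one]
  ext i j
  fin_cases i <;> fin_cases j <;> simp

lemma mem_U {g : Matrix.SpecialLinearGroup (Fin 2) R} : g ∈ U R ↔ ∃ a, g = xPos a := by
  constructor
  · intro hg
    refine Subgroup.closure_induction (p := fun g _ => ∃ a, g = xPos a) ?_ ?_ ?_ ?_ hg
    · rintro _ ⟨a, rfl⟩; exact ⟨a, rfl⟩
    · exact ⟨0, xPos_zero.symm⟩
    · rintro _ _ _ _ ⟨a, rfl⟩ ⟨b, rfl⟩; exact ⟨a + b, xPos_mul a b⟩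
    · rintro _ _ ⟨a, rfl⟩
      refine ⟨-a, inv_eq_of_mul_eq_one_right ?_⟩
      rw [xPos_mul, add_neg_cancel, xPos_zero]
  · rintro ⟨a, rfl⟩
    exact Subgroup.subset_closure ⟨a, rfl⟩

lemma mem_Uminus {g : Matrix.SpecialLinearGroup (Fin 2) R} : g ∈ Uminus R ↔ ∃ a, g = xNeg a := by
  constructor
  · intro hg
    refine Subgroup.closure_induction (p := fun g _ => ∃ a, g = xNeg a) ?_ ?_ ?_ ?_ hg
    · rintro _ ⟨a, rfl⟩; exact ⟨a, rfl⟩
    · exact ⟨0, xNeg_zero.symm⟩
    · rintro _ _ _ _ ⟨a, rfl⟩ ⟨b, rfl⟩; exact ⟨a + b, xNeg_mul a b⟩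
    · rintro _ _ ⟨a, rfl⟩
      refine ⟨-a, inv_eq_of_mul_eq_one_right ?_⟩
      rw [xNeg_mul, add_neg_cancel, xNeg_zero]
  · rintro ⟨a, rfl⟩
    exact Subgroup.subset_closure ⟨a, rfl⟩

/-- Entries of `l(a) u(b) l(c) u(d) l(e)`. -/
lemma entries (a b c d e : R) :
    ((xNeg a * xPos b * xNeg c * xPos d * xNeg e : Matrix.SpecialLinearGroup (Fin 2) R) :
      Matrix (Fin 2) (Fin 2) R) =
    !![(1 + b * c) + (b + d + b * c * d) * e, b + d + b * c * d;
       a * (1 + b * c) + c + (a * (b + d + b * c * d) + 1 + c * d) * e,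
         a * (b + d + b * c * d) + 1 + c * d] := by
  simp only [Matrix.SpecialLinearGroup.coe_mul, coe_xNeg, coe_xPos]
  ext i j
  fin_cases i <;> fin_cases j <;> simp [Matrix.mul_apply, Fin.sum_univ_two] <;> ring

/-- Entries of `u(x) l(x) u(x) l(x) u(x)`. -/
lemma entries' (x : R) :
    ((xPos x * xNeg x * xPos x * xNeg x * xPos x : Matrix.SpecialLinearGroup (Fin 2) R) :
      Matrix (Fin 2) (Fin 2) R) =
    !![1 + 3 * x ^ 2 + x ^ 4, 3 * x + 4 * x ^ 3 + x ^ 5;
       2 * x + x ^ 3, 1 + 3 * x ^ 2 + x ^ 4] := by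
  simp only [Matrix.SpecialLinearGroup.coe_mul, coe_xNeg, coe_xPos]
  ext i j
  fin_cases i <;> fin_cases j <;> simp [Matrix.mul_apply, Fin.sum_univ_two] <;> ring

end

section

variable {K : Type u} [CommRing K] [IsDomain K]

omit [IsDomain K] in
lemma coeffs {a0 a1 a2 a3 a4 a5 b0 b1 b2 b3 b4 b5 : K}
    (h : C a0 + C a1 * X + C a2 * X ^ 2 + C a3 * X ^ 3 + C a4 * X ^ 4 + C a5 * X ^ 5 =
      (C b0 + C b1 * X + C b2 * X ^ 2 + C b3 * X ^ 3 + C b4 * X ^ 4 + C b5 * X ^ 5 : K[X])) :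
    a0 = b0 ∧ a1 = b1 ∧ a2 = b2 ∧ a3 = b3 ∧ a4 = b4 ∧ a5 = b5 := by
  have h0 := congrArg (fun f => coeff f 0) h
  have h1 := congrArg (fun f => coeff f 1) h
  have h2 := congrArg (fun f => coeff f 2) h
  have h3 := congrArg (fun f => coeff f 3) h
  have h4 := congrArg (fun f => coeff f 4) h
  have h5 := congrArg (fun f => coeff f 5) h
  simp only [coeff_add, coeff_C_mul, coeff_X, coeff_C, coeff_X_pow] at h0 h1 h2 h3 h4 h5
  norm_num at h0 h1 h2 h3 h4 h5
  exact ⟨h0, h1, h2, h3, h4, h5⟩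

lemma key (a b c d e : K[X])
    (h11 : (1 + b * c) + (b + d + b * c * d) * e = 1 + 3 * X ^ 2 + X ^ 4)
    (h12 : b + d + b * c * d = 3 * X + 4 * X ^ 3 + X ^ 5)
    (h21 : a * (1 + b * c) + c + (a * (b + d + b * c * d) + 1 + c * d) * e = 2 * X + X ^ 3)
    (h22 : a * (b + d + b * c * d) + 1 + c * d = 1 + 3 * X ^ 2 + X ^ 4) : False := by
  rw [h12] at h11 h22
  rw [h12, h22] at h21
  have hp : (1 + 3 * X ^ 2 + X ^ 4 : K[X]).natDegree = 4 := by compute_degree!
  have hq : (3 * X + 4 * X ^ 3 + X ^ 5 : K[X]).natDegree = 5 := by compute_degree!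
  have hq0 : (3 * X + 4 * X ^ 3 + X ^ 5 : K[X]) ≠ 0 := by
    intro h; rw [h, natDegree_zero] at hq; omega
  -- degree of `p - q * e`
  have hdeg : ∀ e : K[X], (e = 0 ∧ ((1 + 3 * X ^ 2 + X ^ 4 : K[X]) -
      (3 * X + 4 * X ^ 3 + X ^ 5) * e).natDegree = 4) ∨ (e ≠ 0 ∧ ((1 + 3 * X ^ 2 + X ^ 4 : K[X]) -
      (3 * X + 4 * X ^ 3 + X ^ 5) * e).natDegree = 5 + e.natDegree) := by
    intro e
    by_cases he : e = 0
    · left; refine ⟨he, ?_⟩; rw [he, mul_zero, sub_zero, hp]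
    · right; refine ⟨he, ?_⟩
      have h1 : ((3 * X + 4 * X ^ 3 + X ^ 5 : K[X]) * e).natDegree = 5 + e.natDegree := by
        rw [natDegree_mul hq0 he, hq]
      rw [natDegree_sub_eq_right_of_natDegree_lt, h1]
      rw [h1, hp]; omega
  have e1 : 1 + b * c = (1 + 3 * X ^ 2 + X ^ 4 : K[X]) - (3 * X + 4 * X ^ 3 + X ^ 5) * e := by
    rw [← h11]; ring
  have e2 : 1 + c * d = (1 + 3 * X ^ 2 + X ^ 4 : K[X]) - (3 * X + 4 * X ^ 3 + X ^ 5) * a := by
    rw [← h22]; ring
  have e3 : c = 2 * X + X ^ 3 - (1 + 3 * X ^ 2 + X ^ 4) * e -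
      a * ((1 + 3 * X ^ 2 + X ^ 4 : K[X]) - (3 * X + 4 * X ^ 3 + X ^ 5) * e) := by
    rw [← e1, ← h21]; ring
  have d1 : (1 + b * c).natDegree = (b * c).natDegree := by
    have : (1 + b * c).natDegree ≥ 4 := by
      rw [e1]; rcases hdeg e with ⟨_, h⟩ | ⟨_, h⟩ <;> omega
    by_contra hne
    have h1 : (1 + b * c).natDegree ≤ max (1 : K[X]).natDegree (b * c).natDegree :=
      natDegree_add_le _ _
    have h2 : (b * c).natDegree ≤ max (1 + b * c).natDegree (1 : K[X]).natDegree := by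
      have : b * c = (1 + b * c) - 1 := by ring
      calc (b * c).natDegree = ((1 + b * c) - 1).natDegree := by rw [← this]
        _ ≤ _ := natDegree_sub_le _ _
    rw [natDegree_one] at h1 h2
    omega
  have d2 : (1 + c * d).natDegree = (c * d).natDegree := by
    have : (1 + c * d).natDegree ≥ 4 := by
      rw [e2]; rcases hdeg a with ⟨_, h⟩ | ⟨_, h⟩ <;> omega
    by_contra hne
    have h1 : (1 + c * d).natDegree ≤ max (1 : K[X]).natDegree (c * d).natDegree :=
      natDegree_add_le _ _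
    have h2 : (c * d).natDegree ≤ max (1 + c * d).natDegree (1 : K[X]).natDegree := by
      have : c * d = (1 + c * d) - 1 := by ring
      calc (c * d).natDegree = ((1 + c * d) - 1).natDegree := by rw [← this]
        _ ≤ _ := natDegree_sub_le _ _
    rw [natDegree_one] at h1 h2
    omega
  rw [e1] at d1
  rw [e2] at d2
  have hbc0 : b * c ≠ 0 := by
    intro h; rw [h, natDegree_zero] at d1
    rcases hdeg e with ⟨_, h⟩ | ⟨_, h⟩ <;> omega
  have hcd0 : c * d ≠ 0 := by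
    intro h; rw [h, natDegree_zero] at d2
    rcases hdeg a with ⟨_, h⟩ | ⟨_, h⟩ <;> omega
  have hb0 : b ≠ 0 := left_ne_zero_of_mul hbc0
  have hc0 : c ≠ 0 := right_ne_zero_of_mul hbc0
  have hd0 : d ≠ 0 := right_ne_zero_of_mul hcd0
  rw [natDegree_mul hb0 hc0] at d1
  rw [natDegree_mul hc0 hd0] at d2
  have d3 : b.natDegree + c.natDegree + d.natDegree = 5 := by
    have h1 : (b * c * d).natDegree = b.natDegree + c.natDegree + d.natDegree := by
      rw [natDegree_mul hbc0 hd0, natDegree_mul hb0 hc0]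
    have h2 : (b + d + b * c * d).natDegree = 5 := by rw [h12, hq]
    have h3 : (b + d).natDegree ≤ max b.natDegree d.natDegree := natDegree_add_le _ _
    rw [natDegree_add_eq_right_of_natDegree_lt] at h2
    · omega
    · rw [h1]
      have h4 : b.natDegree + c.natDegree ≥ 4 := by
        rcases hdeg e with ⟨_, h⟩ | ⟨_, h⟩ <;> omega
      have h5 : c.natDegree + d.natDegree ≥ 4 := by
        rcases hdeg a with ⟨_, h⟩ | ⟨_, h⟩ <;> omega
      omega
  rcases hdeg e with ⟨he, hE⟩ | ⟨he, hE⟩ <;> rcases hdeg a with ⟨ha, hA⟩ | ⟨ha, hA⟩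
  · -- `a = e = 0`
    have hb1 : b.natDegree = 1 := by omega
    obtain ⟨u, v, huv⟩ := exists_eq_X_add_C_of_natDegree_le_one hb1.le
    have hc : c = 2 * X + X ^ 3 := by rw [e3, he, ha]; ring
    rw [hc, huv, he] at e1
    have h := coeffs (K := K) (a0 := 1) (a1 := 2 * v) (a2 := 2 * u) (a3 := v) (a4 := u) (a5 := 0)
      (b0 := 1) (b1 := 0) (b2 := 3) (b3 := 0) (b4 := 1) (b5 := 0) (by
        simp only [map_mul, map_one, map_ofNat, map_zero]
        linear_combination e1)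
    obtain ⟨-, -, h2, -, h4, -⟩ := h
    rw [h4] at h2
    have h6 : (1 : K) = 0 := by linear_combination -h2
    exact one_ne_zero h6
  · -- `e = 0`, `a ≠ 0`
    have ha0 : a.natDegree = 0 := by omega
    have hb1 : b.natDegree = 0 := by omega
    rw [natDegree_eq_zero] at ha0 hb1
    obtain ⟨α, rfl⟩ := ha0
    obtain ⟨β, rfl⟩ := hb1
    rw [he] at e3 e1
    rw [e3] at e1
    have h := coeffs (K := K) (a0 := 1 - β * α) (a1 := 2 * β) (a2 := -(3 * α * β)) (a3 := β)
      (a4 := -(α * β)) (a5 := 0)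
      (b0 := 1) (b1 := 0) (b2 := 3) (b3 := 0) (b4 := 1) (b5 := 0) (by
        simp only [map_mul, map_one, map_ofNat, map_zero, map_sub, map_neg]
        linear_combination e1)
    obtain ⟨-, -, -, h3, -, -⟩ := h
    rw [h3, map_zero] at hb0
    exact hb0 rfl
  · -- `e ≠ 0`, `a = 0`
    have he0 : e.natDegree = 0 := by omega
    have hd1 : d.natDegree = 0 := by omega
    rw [natDegree_eq_zero] at he0 hd1
    obtain ⟨ε, rfl⟩ := he0
    obtain ⟨δ, rfl⟩ := hd1
    rw [ha] at e3 e2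
    rw [e3] at e2
    have h := coeffs (K := K) (a0 := 1 - ε * δ) (a1 := 2 * δ) (a2 := -(3 * ε * δ)) (a3 := δ)
      (a4 := -(ε * δ)) (a5 := 0)
      (b0 := 1) (b1 := 0) (b2 := 3) (b3 := 0) (b4 := 1) (b5 := 0) (by
        simp only [map_mul, map_one, map_ofNat, map_zero, map_sub, map_neg]
        linear_combination e2)
    obtain ⟨-, -, -, h3, -, -⟩ := h
    rw [h3, map_zero] at hd0
    exact hd0 rfl
  · -- `e ≠ 0`, `a ≠ 0`
    have he0 : e.natDegree = 0 := by omega
    have ha0 : a.natDegree = 0 := by omega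
    have hb1 : b.natDegree = 0 := by omega
    rw [natDegree_eq_zero] at he0 ha0 hb1
    obtain ⟨ε, rfl⟩ := he0
    obtain ⟨α, rfl⟩ := ha0
    obtain ⟨β, rfl⟩ := hb1
    rw [e3] at e1
    have h := coeffs (K := K) (a0 := 1 - β * (ε + α)) (a1 := β * (2 + 3 * α * ε))
      (a2 := -(3 * β * (ε + α))) (a3 := β * (1 + 4 * α * ε))
      (a4 := -(β * (ε + α))) (a5 := β * (α * ε))
      (b0 := 1) (b1 := -(3 * ε)) (b2 := 3) (b3 := -(4 * ε)) (b4 := 1) (b5 := -ε) (by
        simp only [map_mul, map_one, map_ofNat, map_sub, map_neg, map_add]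
        linear_combination e1)
    obtain ⟨-, -, -, h3, -, h5⟩ := h
    have h6 : β = 0 := by linear_combination h3 - 4 * h5
    rw [h6, map_zero] at hb0
    exact hb0 rfl

end

/-- The two length-five products of unitriangular subgroups of `SL₂(K[X])` (the simply connected
Chevalley group of type `A₁`) are different, for every integral domain `K`: the element
`u(X) l(X) u(X) l(X) u(X)` of `U U⁻ U U⁻ U` is not in `U⁻ U U⁻ U U⁻`. -/
theorem result (K : Type u) [CommRing K] [IsDomain K] :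
    (xPos X * xNeg X * xPos X * xNeg X * xPos X : Matrix.SpecialLinearGroup (Fin 2) K[X]) ∉
      ((Uminus K[X] : Set (Matrix.SpecialLinearGroup (Fin 2) K[X])) * U K[X] * Uminus K[X] *
        U K[X] * Uminus K[X]) ∧
    ((Uminus K[X] : Set (Matrix.SpecialLinearGroup (Fin 2) K[X])) * U K[X] * Uminus K[X] * U K[X] *
      Uminus K[X]) ≠
    ((U K[X] : Set (Matrix.SpecialLinearGroup (Fin 2) K[X])) * Uminus K[X] * U K[X] * Uminus K[X] *
      U K[X]) := by
  have hmain : (xPos X * xNeg X * xPos X * xNeg X * xPos X :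
      Matrix.SpecialLinearGroup (Fin 2) K[X]) ∉
      ((Uminus K[X] : Set (Matrix.SpecialLinearGroup (Fin 2) K[X])) * U K[X] * Uminus K[X] *
        U K[X] * Uminus K[X]) := by
    intro h1
    obtain ⟨_, ⟨_, ⟨_, ⟨g1, hg1, g2, hg2, rfl⟩, g3, hg3, rfl⟩, g4, hg4, rfl⟩, g5, hg5, h2⟩ := h1
    obtain ⟨a, rfl⟩ := mem_Uminus.1 hg1
    obtain ⟨b, rfl⟩ := mem_U.1 hg2
    obtain ⟨c, rfl⟩ := mem_Uminus.1 hg3
    obtain ⟨d, rfl⟩ := mem_U.1 hg4
    obtain ⟨e, rfl⟩ := mem_Uminus.1 hg5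
    have h3 : ((xNeg a * xPos b * xNeg c * xPos d * xNeg e :
        Matrix.SpecialLinearGroup (Fin 2) K[X]) : Matrix (Fin 2) (Fin 2) K[X]) =
        ((xPos X * xNeg X * xPos X * xNeg X * xPos X : Matrix.SpecialLinearGroup (Fin 2) K[X]) :
        Matrix (Fin 2) (Fin 2) K[X]) := congrArg _ h2
    rw [entries, entries'] at h3
    have h11 := congrFun (congrFun h3 0) 0
    have h12 := congrFun (congrFun h3 0) 1
    have h21 := congrFun (congrFun h3 1) 0
    have h22 := congrFun (congrFun h3 1) 1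
    simp only [of_apply, cons_val', cons_val_zero, cons_val_one] at h11 h12 h21 h22
    exact key a b c d e h11 h12 h21 h22
  refine ⟨hmain, fun h => hmain ?_⟩
  rw [h]
  exact Set.mul_mem_mul (Set.mul_mem_mul (Set.mul_mem_mul (Set.mul_mem_mul
      (mem_U.2 ⟨_, rfl⟩) (mem_Uminus.2 ⟨_, rfl⟩)) (mem_U.2 ⟨_, rfl⟩)) (mem_Uminus.2 ⟨_, rfl⟩))
      (mem_U.2 ⟨_, rfl⟩)

end Pool.Agent.Results.MP_b8636a_al.FiveFactors
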